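import Pool.Agent.H87.SN.Targets

/-!
# Row KIN of the board snk_modules: the integral of the kernel away from a core
-/

set_option autoImplicit false

open MeasureTheory Metric Set Filter Topology

namespace Pool.Agent.H49.SN

open Pool.Agent.H87.SN

theorem lint_tail (c p : ℝ) (hc : 0 < c) (hp : 1 < p) :
    ∫⁻ s in Ioi (0 : ℝ), ENNReal.ofReal ((c + s) ^ (-p)) =
      ENNReal.ofReal (c ^ (1 - p) / (p - 1)) := by
  have hp1 : p - 1 ≠ 0 := by linarith
  have hder : ∀ s ∈ Ici (0 : ℝ), HasDerivAt (fun s : ℝ => -(c + s) ^ (1 - p) / (p - 1))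
      ((c + s) ^ (-p)) s := by
    intro s hs
    have hs0 : 0 < c + s := by
      have : 0 ≤ s := hs
      linarith
    have h1 : HasDerivAt (fun s : ℝ => c + s) 1 s := (hasDerivAt_id s).const_add c
    have h2 := (h1.rpow_const (p := 1 - p) (Or.inl hs0.ne')).neg.div_const (p - 1)
    have h3 : -(1 * (1 - p) * (c + s) ^ (1 - p - 1)) / (p - 1) = (c + s) ^ (-p) := by
      have h4 : 1 - p - 1 = -p := by ring
      rw [h4]
      field_simp
      ring
    rw [h3] at h2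
    exact h2
  have hpos : ∀ s ∈ Ioi (0 : ℝ), 0 ≤ (c + s) ^ (-p) := by
    intro s hs
    have : 0 < s := hs
    positivity
  have hlim : Tendsto (fun s : ℝ => -(c + s) ^ (1 - p) / (p - 1)) atTop (𝓝 0) := by
    have h1 : Tendsto (fun s : ℝ => c + s) atTop atTop := tendsto_atTop_add_const_left _ _ tendsto_id
    have h2 := (tendsto_rpow_neg_atTop (y := p - 1) (by linarith)).comp h1
    have h3 := (h2.neg).div_const (p - 1)
    rw [neg_zero, zero_div] at h3
    refine h3.congr fun s => ?_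
    show -((c + s) ^ (-(p - 1))) / (p - 1) = -(c + s) ^ (1 - p) / (p - 1)
    rw [neg_sub]
  have h1 := integral_Ioi_of_hasDerivAt_of_nonneg' hder hpos hlim
  have h2 := integrableOn_Ioi_deriv_of_nonneg' hder hpos hlim
  have h3 := ofReal_integral_eq_lintegral_ofReal h2
    ((ae_restrict_iff' measurableSet_Ioi).2 (Eventually.of_forall hpos))
  rw [← h3, h1]
  congr 1
  rw [add_zero]
  ring

theorem lint_abs (g : ℝ → ENNReal) :
    ∫⁻ τ : ℝ, g |τ| ≤ 2 * ∫⁻ τ in Ioi (0 : ℝ), g τ := by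
  have h1 : ∫⁻ τ : ℝ, g |τ| = (∫⁻ τ in Ioi (0 : ℝ), g |τ|) + ∫⁻ τ in (Ioi (0 : ℝ))ᶜ, g |τ| :=
    (lintegral_add_compl _ measurableSet_Ioi).symm
  have h2 : ∫⁻ τ in Ioi (0 : ℝ), g |τ| = ∫⁻ τ in Ioi (0 : ℝ), g τ := by
    refine setLIntegral_congr_fun measurableSet_Ioi fun τ hτ => ?_
    show g |τ| = g τ
    rw [abs_of_pos hτ]
  have h3 : ∫⁻ τ in (Ioi (0 : ℝ))ᶜ, g |τ| = ∫⁻ τ in Ioi (0 : ℝ), g τ := by
    have h4 : (Ioi (0 : ℝ))ᶜ = Iic 0 := compl_Ioi
    rw [h4, ← lintegral_indicator measurableSet_Iic, ← lintegral_neg_eq_self]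
    have h5 : ∀ x : ℝ, (Iic (0 : ℝ)).indicator (fun τ => g |τ|) (-x) =
        (Ici (0 : ℝ)).indicator (fun τ => g τ) x := by
      intro x
      by_cases hx : 0 ≤ x
      · rw [indicator_of_mem (show -x ∈ Iic (0 : ℝ) by
          show -x ≤ 0
          linarith), indicator_of_mem (show x ∈ Ici (0 : ℝ) from hx), abs_neg, abs_of_nonneg hx]
      · rw [indicator_of_notMem (show -x ∉ Iic (0 : ℝ) by
          intro h
          have h6 : -x ≤ 0 := h
          exact hx (by linarith)), indicator_of_notMem (show x ∉ Ici (0 : ℝ) from hx)]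
    simp_rw [h5]
    rw [lintegral_indicator measurableSet_Ici]
    exact setLIntegral_congr Ioi_ae_eq_Ici.symm
  rw [h1, h2, h3, two_mul]

theorem ker_bound {a' s τ : ℝ} (ha : 0 < a') (hs : 0 < s) (hw : a' ≤ s + |τ|) :
    kerJ s τ / s ≤ 16000 * ((a' + |τ|) + s) ^ (-(5 / 2 : ℝ)) := by
  obtain ⟨v, hv⟩ : ∃ v : ℝ, v = (a' + |τ|) + s := ⟨_, rfl⟩
  rw [← hv]
  have hτ : 0 ≤ |τ| := abs_nonneg τ
  have hv0 : 0 < v := by
    rw [hv]
    linarith
  have hvw : v ≤ 2 * (s + |τ|) := by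
    rw [hv]
    linarith
  have hτ2 : |τ| ^ 2 = τ ^ 2 := sq_abs τ
  obtain ⟨D, hD⟩ : ∃ D : ℝ, D = s ^ 2 + τ ^ 2 / 100 := ⟨_, rfl⟩
  have hD0 : 0 < D := by
    rw [hD]
    positivity
  have hD1 : v ^ 2 ≤ 800 * D := by
    have h1 : v ^ 2 ≤ (2 * (s + |τ|)) ^ 2 := pow_le_pow_left₀ hv0.le hvw 2
    rw [hD]
    nlinarith [sq_nonneg (s - |τ|), sq_nonneg s]
  have hD2 : s * v ≤ 400 * D := by
    have h1 : s * v ≤ s * (2 * (s + |τ|)) := mul_le_mul_of_nonneg_left hvw hs.le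
    rw [hD]
    nlinarith [sq_nonneg (s - |τ|), sq_nonneg s]
  have hX : kerJ s τ = (s / D) * Real.sqrt (s / D) := by
    unfold kerJ
    rw [← hD]
    have h1 : (3 / 2 : ℝ) = 1 + 1 / 2 := by norm_num
    rw [h1, Real.rpow_add (div_pos hs hD0), Real.rpow_one, Real.sqrt_eq_rpow]
  have hv5 : v ^ (-(5 / 2 : ℝ)) = (v ^ 2)⁻¹ * (Real.sqrt v)⁻¹ := by
    have h1 : (-(5 / 2 : ℝ)) = -2 + -(1 / 2) := by norm_num
    rw [h1, Real.rpow_add hv0, Real.rpow_neg hv0.le, Real.rpow_neg hv0.le, Real.sqrt_eq_rpow]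
    norm_num
  have h1 : s / D / s ≤ 800 * (v ^ 2)⁻¹ := by
    have h2 : s / D / s = 1 / D := by
      field_simp
    rw [h2, ← div_eq_mul_inv, div_le_div_iff₀ hD0 (by positivity)]
    linarith
  have h2 : Real.sqrt (s / D) ≤ 20 * (Real.sqrt v)⁻¹ := by
    have h3 : s / D ≤ 400 / v := by
      rw [div_le_div_iff₀ hD0 hv0]
      exact hD2
    have h4 : Real.sqrt (400 / v) = 20 * (Real.sqrt v)⁻¹ := by
      rw [Real.sqrt_div (by norm_num), show (400 : ℝ) = 20 ^ 2 by norm_num,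
        Real.sqrt_sq (by norm_num), div_eq_mul_inv]
    rw [← h4]
    exact Real.sqrt_le_sqrt h3
  rw [hX, hv5]
  calc s / D * Real.sqrt (s / D) / s = (s / D / s) * Real.sqrt (s / D) := by ring
    _ ≤ (800 * (v ^ 2)⁻¹) * (20 * (Real.sqrt v)⁻¹) :=
        mul_le_mul h1 h2 (Real.sqrt_nonneg _) (by positivity)
    _ = 16000 * ((v ^ 2)⁻¹ * (Real.sqrt v)⁻¹) := by ring

theorem pf_KIN : T_KIN := by
  intro M hM
  have hM0 : 0 < M := by linarith
  refine ⟨64000 * Real.sqrt (2 * M), by positivity, ?_⟩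
  intro a ha _ha1
  obtain ⟨a', ha'⟩ : ∃ a' : ℝ, a' = a / (2 * M) := ⟨_, rfl⟩
  have ha0 : 0 < a' := by
    rw [ha']
    positivity
  have ha2 : a' ≤ a / 2 := by
    rw [ha']
    apply div_le_div_of_nonneg_left ha.le (by norm_num)
    linarith
  have hin : ∀ τ : ℝ, ∫⁻ s in Ioi (0 : ℝ), (if a / 2 ≤ s ∨ a / (2 * M) ≤ |τ| then
      ENNReal.ofReal (kerJ s τ / s) else 0) ≤
      ENNReal.ofReal (32000 / 3 * (a' + |τ|) ^ (-(3 / 2 : ℝ))) := by
    intro τ
    have hc : 0 < a' + |τ| := by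
      have := abs_nonneg τ
      linarith
    calc ∫⁻ s in Ioi (0 : ℝ), (if a / 2 ≤ s ∨ a / (2 * M) ≤ |τ| then
          ENNReal.ofReal (kerJ s τ / s) else 0)
        ≤ ∫⁻ s in Ioi (0 : ℝ), ENNReal.ofReal 16000 *
            ENNReal.ofReal (((a' + |τ|) + s) ^ (-(5 / 2 : ℝ))) := by
          refine setLIntegral_mono' measurableSet_Ioi fun s hs => ?_
          have hs0 : 0 < s := hs
          split_ifs with h
          · rw [← ENNReal.ofReal_mul (by norm_num)]
            refine ENNReal.ofReal_le_ofReal (ker_bound ha0 hs0 ?_)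
            rcases h with h | h
            · have := abs_nonneg τ
              linarith
            · rw [← ha'] at h
              linarith
          · exact bot_le
      _ = ENNReal.ofReal 16000 * ENNReal.ofReal ((a' + |τ|) ^ (1 - (5 / 2 : ℝ)) / (5 / 2 - 1)) := by
          rw [lintegral_const_mul' _ _ ENNReal.ofReal_ne_top, lint_tail _ _ hc (by norm_num)]
      _ = ENNReal.ofReal (32000 / 3 * (a' + |τ|) ^ (-(3 / 2 : ℝ))) := by
          rw [← ENNReal.ofReal_mul (by norm_num)]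
          congr 1
          rw [show 1 - (5 / 2 : ℝ) = -(3 / 2) by norm_num]
          ring
  calc ∫⁻ τ : ℝ, ∫⁻ s in Ioi (0 : ℝ), (if a / 2 ≤ s ∨ a / (2 * M) ≤ |τ| then
        ENNReal.ofReal (kerJ s τ / s) else 0)
      ≤ ∫⁻ τ : ℝ, ENNReal.ofReal (32000 / 3 * (a' + |τ|) ^ (-(3 / 2 : ℝ))) :=
        lintegral_mono fun τ => hin τ
    _ ≤ 2 * ∫⁻ τ in Ioi (0 : ℝ), ENNReal.ofReal (32000 / 3 * (a' + τ) ^ (-(3 / 2 : ℝ))) :=
        lint_abs (fun τ => ENNReal.ofReal (32000 / 3 * (a' + τ) ^ (-(3 / 2 : ℝ))))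
    _ = ENNReal.ofReal 2 * (ENNReal.ofReal (32000 / 3) *
          ENNReal.ofReal (a' ^ (1 - (3 / 2 : ℝ)) / (3 / 2 - 1))) := by
        rw [← lint_tail a' (3 / 2) ha0 (by norm_num),
          ← lintegral_const_mul' _ _ ENNReal.ofReal_ne_top]
        congr 1
        · norm_num
        · refine lintegral_congr fun τ => ?_
          rw [← ENNReal.ofReal_mul (by norm_num)]
    _ = ENNReal.ofReal (128000 / 3 * a' ^ (-(1 / 2 : ℝ))) := by
        rw [← ENNReal.ofReal_mul (by norm_num), ← ENNReal.ofReal_mul (by norm_num)]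
        congr 1
        rw [show 1 - (3 / 2 : ℝ) = -(1 / 2) by norm_num]
        ring
    _ ≤ ENNReal.ofReal (64000 * Real.sqrt (2 * M) / Real.sqrt a) := by
        refine ENNReal.ofReal_le_ofReal ?_
        have h1 : a' ^ (-(1 / 2 : ℝ)) = Real.sqrt (2 * M) / Real.sqrt a := by
          rw [Real.rpow_neg ha0.le, ← Real.sqrt_eq_rpow, ha', Real.sqrt_div ha.le, inv_div]
        rw [h1, mul_div_assoc]
        refine mul_le_mul_of_nonneg_right (by norm_num) (by positivity)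

end Pool.Agent.H49.SN
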